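import Pool.Agent.Helper76.FT.GoalsC

/-! Packet FT-W of MP_39e2b7_an: the velocity as a function of the momentum. -/

set_option autoImplicit false

namespace Pool.Agent.Helper67.FT

open Complex Set Filter Topology Pool.Agent.Helper76.FT

/-! ### uniform continuity of the leaves -/

lemma V_unif (S : Sys) (hS : S.Ok) (ε : ℝ) (hε : 0 < ε) :
    ∃ δ : ℝ, 0 < δ ∧ ∀ Y ∈ Icc S.a S.b, ∀ t ∈ Icc (0:ℝ) 1, ∀ q q' : ℝ, |q - q'| < δ →
      |S.V Y q t - S.V Y q' t| < ε := by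
  have hK : IsCompact (Icc S.a S.b ×ˢ (Icc (-1:ℝ) 2 ×ˢ Icc (0:ℝ) 1)) :=
    isCompact_Icc.prod (isCompact_Icc.prod isCompact_Icc)
  have hc : ContinuousOn (fun z : ℝ × ℝ × ℝ => S.V z.1 z.2.1 z.2.2)
      (Icc S.a S.b ×ˢ (Icc (-1:ℝ) 2 ×ˢ Icc (0:ℝ) 1)) :=
    hS.Vcont.mono (Set.prod_mono le_rfl (Set.prod_mono (subset_univ _) le_rfl))
  have hu := hK.uniformContinuousOn_of_continuous hc
  rw [Metric.uniformContinuousOn_iff] at hu
  obtain ⟨δ, hδ, h⟩ := hu ε hε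
  refine ⟨min δ 1, lt_min hδ one_pos, ?_⟩
  intro Y hY t ht q q' hqq
  have hper : Function.Periodic (fun q => S.V Y q t) 1 := fun q => hS.Vper Y hY q t ht
  have e1 : S.V Y (q - ⌊q⌋) t = S.V Y q t := by
    have := hper.sub_int_mul_eq ⌊q⌋ (x := q)
    simpa using this
  have e2 : S.V Y (q' - ⌊q⌋) t = S.V Y q' t := by
    have := hper.sub_int_mul_eq ⌊q⌋ (x := q')
    simpa using this
  have h1 : |q - q'| < 1 := hqq.trans_le (min_le_right _ _)
  have h2 : |q - q'| < δ := hqq.trans_le (min_le_left _ _)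
  have h3 := Int.floor_le q
  have h4 := Int.lt_floor_add_one q
  rw [abs_lt] at h1
  have h5 := h (Y, q - ⌊q⌋, t) ⟨hY, ⟨by simp only; linarith, by simp only; linarith⟩, ht⟩
    (Y, q' - ⌊q⌋, t) ⟨hY, ⟨by simp only; linarith, by simp only; linarith⟩, ht⟩ (by
      rw [Prod.dist_eq, Prod.dist_eq]
      simp only [dist_self]
      rw [max_eq_right (le_max_of_le_right le_rfl), max_eq_left dist_nonneg, Real.dist_eq]
      rwa [show q - ⌊q⌋ - (q' - ⌊q⌋) = q - q' by ring])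
  simp only [Real.dist_eq] at h5
  rwa [e1, e2] at h5

/-! ### facts on the momentum -/

/-- the facts of `GMom` which are used -/
structure MF (S : Sys) (k0 M : ℝ) : Prop where
  hk0 : 0 < k0
  hM : 0 < M
  cont : ContinuousOn (fun y : ℝ × (ℂ × ℂ) => S.p y.1 y.2.1 y.2.2)
      {y | y.1 ∈ Icc (0:ℝ) 1 ∧ y.2 ∈ S.Nb y.1 S.r}
  diff : ∀ t ∈ Icc (0:ℝ) 1, DifferentiableOn ℂ (fun z : ℂ × ℂ => S.p t z.1 z.2) (S.Nb t S.r)
  der : ∀ t ∈ Icc (0:ℝ) 1, ∀ z ∈ S.Nb t S.r,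
    HasDerivAt (fun w => S.p t z.1 w) (S.κ (z.1 - t * z.2) z.2) z.2
  re : ∀ t ∈ Icc (0:ℝ) 1, ∀ z ∈ S.Nb t S.r, k0 ≤ (S.κ (z.1 - t * z.2) z.2).re
  nrm : ∀ t ∈ Icc (0:ℝ) 1, ∀ z ∈ S.Nb t S.r, ‖S.κ (z.1 - t * z.2) z.2‖ ≤ M
  bd : ∀ t ∈ Icc (0:ℝ) 1, ∀ z ∈ S.Nb t S.r, ‖S.p t z.1 z.2‖ ≤ M
  per : ∀ t ∈ Icc (0:ℝ) 1, ∀ z ∈ S.Nb t S.r, S.p t (z.1 + 1) z.2 = S.p t z.1 z.2
  sym : ∀ t ∈ Icc (0:ℝ) 1, ∀ z ∈ S.Nb t S.r,
    S.p t ((starRingEnd ℂ) z.1) ((starRingEnd ℂ) z.2) = (starRingEnd ℂ) (S.p t z.1 z.2)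

lemma mem_Nb {S : Sys} {t r : ℝ} {y : ℝ × ℝ} (hy : y ∈ S.Reg t) {z1 z2 : ℂ}
    (h1 : ‖z1 - (y.1 : ℂ)‖ < r) (h2 : ‖z2 - (y.2 : ℂ)‖ < r) : (z1, z2) ∈ S.Nb t r :=
  ⟨y, hy, h1, h2⟩

lemma Nb_mono {S : Sys} {t r r' : ℝ} (h : r ≤ r') : S.Nb t r ⊆ S.Nb t r' := by
  rintro z ⟨y, hy, h1, h2⟩
  exact ⟨y, hy, h1.trans_le h, h2.trans_le h⟩

/-- Lipschitz bound from a real point -/
lemma lip {S : Sys} (hr : 0 < S.r) {k0 M : ℝ} (hm : MF S k0 M) {t : ℝ} (ht : t ∈ Icc (0:ℝ) 1)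
    {y : ℝ × ℝ} (hy : y ∈ S.Reg t) {z1 z2 : ℂ} (h1 : ‖z1 - (y.1 : ℂ)‖ < S.r)
    (h2 : ‖z2 - (y.2 : ℂ)‖ < S.r) :
    ‖S.p t z1 z2 - S.p t (y.1 : ℂ) (y.2 : ℂ)‖ ≤
      (2 * M / S.r + M) * (‖z1 - (y.1 : ℂ)‖ + ‖z2 - (y.2 : ℂ)‖) := by
  have hM := hm.hM
  -- first variable
  have a1 : ‖S.p t z1 z2 - S.p t (y.1 : ℂ) z2‖ ≤ 2 * M / S.r * ‖z1 - (y.1 : ℂ)‖ := by
    have hd : DifferentiableOn ℂ (fun q => S.p t q z2) (Metric.ball (y.1 : ℂ) S.r) := by
      intro q hq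
      have hmem : (q, z2) ∈ S.Nb t S.r := mem_Nb hy (by simpa [dist_eq_norm] using hq) h2
      have h3 := hm.diff t ht (q, z2) hmem
      have h4 : DifferentiableWithinAt ℂ (fun q => ((q, z2) : ℂ × ℂ))
          (Metric.ball (y.1 : ℂ) S.r) q :=
        (differentiableWithinAt_id.prodMk (differentiableWithinAt_const _))
      have h5 := DifferentiableWithinAt.comp (g := fun z : ℂ × ℂ => S.p t z.1 z.2) q h3 h4 (by
        intro q' hq'
        exact mem_Nb hy (by simpa [dist_eq_norm] using hq') h2)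
      exact h5
    have hmp : MapsTo (fun q => S.p t q z2) (Metric.ball (y.1 : ℂ) S.r)
        (Metric.closedBall (S.p t (y.1 : ℂ) z2) (2 * M)) := by
      intro q hq
      rw [Metric.mem_closedBall, dist_eq_norm]
      have h3 := hm.bd t ht (q, z2) (mem_Nb hy (by simpa [dist_eq_norm] using hq) h2)
      have h4 := hm.bd t ht ((y.1 : ℂ), z2) (mem_Nb hy (by simpa using hr) h2)
      simp only at h3 h4
      have h5 := norm_sub_le (S.p t q z2) (S.p t (y.1 : ℂ) z2)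
      linarith
    have h3 := Complex.dist_le_div_mul_dist_of_mapsTo_ball hd hmp (z := z1)
      (by rw [Metric.mem_ball, dist_eq_norm]; exact h1)
    rwa [dist_eq_norm, dist_eq_norm] at h3
  -- second variable
  have a2 : ‖S.p t (y.1 : ℂ) z2 - S.p t (y.1 : ℂ) (y.2 : ℂ)‖ ≤ M * ‖z2 - (y.2 : ℂ)‖ := by
    have hcv : Convex ℝ (Metric.ball (y.2 : ℂ) S.r) := convex_ball _ _
    refine hcv.norm_image_sub_le_of_norm_hasDerivWithin_le
      (f := fun w => S.p t (y.1 : ℂ) w) (f' := fun w => S.κ ((y.1 : ℂ) - t * w) w)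
      (fun w hw => ?_) (fun w hw => ?_) (by simpa using hr)
      (by rw [Metric.mem_ball, dist_eq_norm]; exact h2)
    · exact (hm.der t ht ((y.1 : ℂ), w) (mem_Nb hy (by simpa using hr)
        (by simpa [dist_eq_norm] using hw))).hasDerivWithinAt
    · exact hm.nrm t ht ((y.1 : ℂ), w) (mem_Nb hy (by simpa using hr)
        (by simpa [dist_eq_norm] using hw))
  have h3 : S.p t z1 z2 - S.p t (y.1 : ℂ) (y.2 : ℂ) =
      (S.p t z1 z2 - S.p t (y.1 : ℂ) z2) + (S.p t (y.1 : ℂ) z2 - S.p t (y.1 : ℂ) (y.2 : ℂ)) := by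
    ring
  rw [h3]
  refine (norm_add_le _ _).trans ?_
  have h4 : 0 ≤ 2 * M / S.r * ‖z2 - (y.2 : ℂ)‖ := by positivity
  have h5 : 0 ≤ M * ‖z1 - (y.1 : ℂ)‖ := by positivity
  nlinarith

/-- strong monotonicity on a segment -/
lemma seg {S : Sys} {k0 M : ℝ} (hm : MF S k0 M) {t : ℝ} (ht : t ∈ Icc (0:ℝ) 1) {q w w' : ℂ}
    (h : ∀ s ∈ Icc (0:ℝ) 1, (q, w + s * (w' - w)) ∈ S.Nb t S.r) :
    k0 * ‖w - w'‖ ≤ ‖S.p t q w - S.p t q w'‖ := by
  set u : ℂ := w' - w with hu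
  by_cases hu0 : u = 0
  · have : w' = w := sub_eq_zero.1 hu0
    rw [this]
    simp
  have hun : 0 < ‖u‖ := norm_pos_iff.2 hu0
  have hder : ∀ s ∈ Icc (0:ℝ) 1, HasDerivAt
      (fun x : ℝ => ((starRingEnd ℂ) u * S.p t q (w + x * u)).re)
      (((starRingEnd ℂ) u * (S.κ (q - t * (w + s * u)) (w + s * u) * u)).re) s := by
    intro s hs
    have h1 := hm.der t ht _ (h s hs)
    simp only at h1
    have h2 : HasDerivAt (fun x : ℂ => w + x * u) u (s : ℂ) := by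
      have := ((hasDerivAt_id (s : ℂ)).mul_const u).const_add w
      simpa using this
    have h3 : HasDerivAt (fun x : ℂ => S.p t q (w + x * u))
        (S.κ (q - t * (w + s * u)) (w + s * u) * u) (s : ℂ) :=
      HasDerivAt.comp (h₂ := fun w => S.p t q w) (s : ℂ) h1 h2
    exact (h3.const_mul ((starRingEnd ℂ) u)).real_of_complex
  have hval : ∀ s ∈ Icc (0:ℝ) 1, k0 * ‖u‖ ^ 2 ≤
      ((starRingEnd ℂ) u * (S.κ (q - t * (w + s * u)) (w + s * u) * u)).re := by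
    intro s hs
    have h1 := hm.re t ht _ (h s hs)
    simp only at h1
    have h2 : (starRingEnd ℂ) u * (S.κ (q - t * (w + s * u)) (w + s * u) * u) =
        ((‖u‖ ^ 2 : ℝ) : ℂ) * S.κ (q - t * (w + s * u)) (w + s * u) := by
      have h3 : (starRingEnd ℂ) u * u = ((‖u‖ ^ 2 : ℝ) : ℂ) := by
        rw [mul_comm, Complex.mul_conj, Complex.normSq_eq_norm_sq]
      rw [← h3]
      ring
    rw [h2, Complex.re_ofReal_mul]
    have := mul_le_mul_of_nonneg_left h1 (sq_nonneg ‖u‖)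
    linarith
  have h1 := (convex_Icc (0:ℝ) 1).mul_sub_le_image_sub_of_le_deriv
    (f := fun x : ℝ => ((starRingEnd ℂ) u * S.p t q (w + x * u)).re)
    (fun s hs => (hder s hs).continuousAt.continuousWithinAt)
    (fun s hs => (hder s (interior_subset hs)).differentiableAt.differentiableWithinAt)
    (C := k0 * ‖u‖ ^ 2)
    (fun s hs => by rw [(hder s (interior_subset hs)).deriv]; exact hval s (interior_subset hs))
    0 (by simp) 1 (by simp) zero_le_one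
  simp only [sub_zero, mul_one, Complex.ofReal_one, one_mul, Complex.ofReal_zero, zero_mul,
    add_zero] at h1
  have h2 : w + u = w' := by rw [hu]; ring
  rw [h2, ← Complex.sub_re, ← mul_sub] at h1
  have h3 : ((starRingEnd ℂ) u * (S.p t q w' - S.p t q w)).re ≤
      ‖u‖ * ‖S.p t q w' - S.p t q w‖ := by
    refine (Complex.re_le_norm _).trans ?_
    rw [norm_mul, RCLike.norm_conj]
  have h4 : ‖u‖ * (k0 * ‖u‖) ≤ ‖u‖ * ‖S.p t q w' - S.p t q w‖ := by nlinarith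
  have h5 := le_of_mul_le_mul_left h4 hun
  rw [norm_sub_rev w w', norm_sub_rev (S.p t q w)]
  exact h5

/-- injectivity in the velocity on a small neighbourhood -/
lemma inj_exists (S : Sys) (hS : S.Ok) {k0 M : ℝ} (hm : MF S k0 M)
    (g1 : ∀ t ∈ Icc (0:ℝ) 1, ∀ y ∈ S.Reg t, ∃ Y ∈ Icc S.a S.b, y.2 = S.V Y y.1 t)
    (g2 : ∀ t ∈ Icc (0:ℝ) 1, ∀ q : ℝ, ∀ Y ∈ Icc S.a S.b, (q, S.V Y q t) ∈ S.Reg t) :
    ∃ r4 : ℝ, 0 < r4 ∧ r4 ≤ S.r / 4 ∧ ∀ t ∈ Icc (0:ℝ) 1, ∀ q w w' : ℂ,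
      (q, w) ∈ S.Nb t r4 → (q, w') ∈ S.Nb t r4 →
      k0 * ‖w - w'‖ ≤ ‖S.p t q w - S.p t q w'‖ := by
  have hr := hS.hr
  obtain ⟨δ, hδ, hV⟩ := V_unif S hS (S.r / 4) (by positivity)
  refine ⟨min (S.r / 4) (δ / 2), lt_min (by positivity) (by positivity), min_le_left _ _, ?_⟩
  intro t ht q w w' hw hw'
  obtain ⟨y, hy, h1, h2⟩ := hw
  obtain ⟨y', hy', h1', h2'⟩ := hw'
  simp only at h1 h2 h1' h2'
  have k1 : min (S.r / 4) (δ / 2) ≤ S.r / 4 := min_le_left _ _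
  have k2 : min (S.r / 4) (δ / 2) ≤ δ / 2 := min_le_right _ _
  obtain ⟨Y', hY', hyY⟩ := g1 t ht y' hy'
  -- the point over `y.1`
  have hyy : |y.1 - y'.1| < δ := by
    have e : ((y.1 - y'.1 : ℝ) : ℂ) = (q - (y'.1 : ℂ)) - (q - (y.1 : ℂ)) := by
      push_cast; ring
    have h3 : |y.1 - y'.1| = ‖((y.1 - y'.1 : ℝ) : ℂ)‖ := by
      rw [Complex.norm_real, Real.norm_eq_abs]
    rw [h3, e]
    have h4 := norm_sub_le (q - (y'.1 : ℂ)) (q - (y.1 : ℂ))
    linarith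
  have h3 := hV Y' hY' t ht y.1 y'.1 hyy
  rw [← hyY] at h3
  have hR := g2 t ht y.1 Y' hY'
  refine seg hm ht fun s hs => ?_
  set v : ℝ := S.V Y' y.1 t with hv
  have hslice : (y.1, (1 - s) * y.2 + s * v) ∈ S.Reg t := by
    obtain ⟨p1, p2⟩ := hy
    obtain ⟨p3, p4⟩ := hR
    simp only at p1 p2 p3 p4
    obtain ⟨s0, s1⟩ := hs
    constructor
    · show S.V S.a y.1 t ≤ (1 - s) * y.2 + s * v
      nlinarith
    · show (1 - s) * y.2 + s * v ≤ S.V S.b y.1 t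
      nlinarith
  refine mem_Nb hslice ?_ ?_
  · simp only
    linarith
  · simp only
    have e : w + s * (w' - w) - (((1 - s) * y.2 + s * v : ℝ) : ℂ) =
        ((1 - s : ℝ) : ℂ) * (w - (y.2 : ℂ)) +
          ((s : ℝ) : ℂ) * ((w' - (y'.2 : ℂ)) - ((v - y'.2 : ℝ) : ℂ)) := by
      push_cast
      ring
    rw [e]
    obtain ⟨s0, s1⟩ := hs
    have e1 : ‖((1 - s : ℝ) : ℂ) * (w - (y.2 : ℂ))‖ = (1 - s) * ‖w - (y.2 : ℂ)‖ := by
      rw [norm_mul, Complex.norm_real, Real.norm_eq_abs, abs_of_nonneg (by linarith)]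
    have e2 : ‖((s : ℝ) : ℂ) * ((w' - (y'.2 : ℂ)) - ((v - y'.2 : ℝ) : ℂ))‖ ≤
        s * (‖w' - (y'.2 : ℂ)‖ + |v - y'.2|) := by
      rw [norm_mul, Complex.norm_real, Real.norm_eq_abs, abs_of_nonneg s0]
      refine mul_le_mul_of_nonneg_left ?_ s0
      refine (norm_sub_le _ _).trans ?_
      rw [Complex.norm_real, Real.norm_eq_abs]
    have e3 := norm_add_le (((1 - s : ℝ) : ℂ) * (w - (y.2 : ℂ)))
      (((s : ℝ) : ℂ) * ((w' - (y'.2 : ℂ)) - ((v - y'.2 : ℝ) : ℂ)))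
    have e4 : (1 - s) * ‖w - (y.2 : ℂ)‖ ≤ (1 - s) * (S.r / 2) :=
      mul_le_mul_of_nonneg_left (by linarith) (by linarith)
    have e5 : s * (‖w' - (y'.2 : ℂ)‖ + |v - y'.2|) ≤ s * (S.r / 2) :=
      mul_le_mul_of_nonneg_left (by linarith) s0
    have e6 : (1 - s) * (S.r / 2) + s * (S.r / 2) = S.r / 2 := by ring
    linarith

/-- `W t q v` is a velocity near the region with momentum `v`, if there is one -/
noncomputable def Wf (S : Sys) (r4 t : ℝ) (q v : ℂ) : ℂ :=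
  open Classical in
  if h : ∃ w, (q, w) ∈ S.Nb t r4 ∧ S.p t q w = v then h.choose else 0

/-- solvability -/
lemma exists_sol {S : Sys} (hr : 0 < S.r) {k0 M : ℝ} (hm : MF S k0 M) {r4 r2 : ℝ} (h4 : 0 < r4)
    (h4r : r4 ≤ S.r / 4) (h24 : r2 ≤ r4)
    (h2 : (2 * M / S.r + M + 1) * r2 ≤ k0 * r4 / 4)
    (hinj : ∀ t ∈ Icc (0:ℝ) 1, ∀ q w w' : ℂ,
      (q, w) ∈ S.Nb t r4 → (q, w') ∈ S.Nb t r4 →
      k0 * ‖w - w'‖ ≤ ‖S.p t q w - S.p t q w'‖)
    {t : ℝ} (ht : t ∈ Icc (0:ℝ) 1) {z : ℂ × ℂ} (hz : z ∈ Pb S t r2) :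
    ∃ w, (z.1, w) ∈ S.Nb t r4 ∧ S.p t z.1 w = z.2 := by
  obtain ⟨y, hy, h1, h3⟩ := hz
  have hM := hm.hM
  have hk0 := hm.hk0
  have hcl : ∀ w ∈ Metric.closedBall (y.2 : ℂ) (r4 / 2), (z.1, w) ∈ S.Nb t r4 := by
    intro w hw
    rw [Metric.mem_closedBall, dist_eq_norm] at hw
    exact mem_Nb hy (by linarith) (by linarith)
  have hsub : S.Nb t r4 ⊆ S.Nb t S.r := Nb_mono (by linarith)
  have hy2 : (z.1, (y.2 : ℂ)) ∈ S.Nb t r4 := hcl _ (by simp; positivity)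
  have hd : DiffContOnCl ℂ (fun w => S.p t z.1 w) (Metric.ball (y.2 : ℂ) (r4 / 2)) := by
    refine DifferentiableOn.diffContOnCl ?_
    rw [closure_ball _ (by positivity)]
    intro w hw
    exact (hm.der t ht (z.1, w) (hsub (hcl w hw))).differentiableAt.differentiableWithinAt
  have hsph : ∀ w ∈ Metric.sphere (y.2 : ℂ) (r4 / 2),
      k0 * (r4 / 2) ≤ ‖S.p t z.1 w - S.p t z.1 (y.2 : ℂ)‖ := by
    intro w hw
    have e1 := hinj t ht z.1 w (y.2 : ℂ) (hcl w (Metric.sphere_subset_closedBall hw)) hy2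
    rw [Metric.mem_sphere, dist_eq_norm] at hw
    rwa [hw] at e1
  have hfr : ∃ᶠ w in 𝓝 (y.2 : ℂ), S.p t z.1 w ≠ S.p t z.1 (y.2 : ℂ) := by
    have e1 : ∃ᶠ w in 𝓝 (y.2 : ℂ), w ≠ (y.2 : ℂ) := by
      have : ∃ᶠ w in 𝓝[≠] (y.2 : ℂ), w ≠ (y.2 : ℂ) :=
        Filter.Eventually.frequently self_mem_nhdsWithin
      exact this.filter_mono nhdsWithin_le_nhds
    have e2 : ∀ᶠ w in 𝓝 (y.2 : ℂ), w ∈ Metric.closedBall (y.2 : ℂ) (r4 / 2) :=
      Metric.closedBall_mem_nhds _ (by positivity)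
    refine (e1.and_eventually e2).mono ?_
    rintro w ⟨hw, hw2⟩ heq
    have e3 := hinj t ht z.1 w (y.2 : ℂ) (hcl w hw2) hy2
    rw [heq, sub_self, norm_zero] at e3
    have e4 : 0 < ‖w - (y.2 : ℂ)‖ := norm_pos_iff.2 (sub_ne_zero.2 hw)
    nlinarith
  have hmain := hd.ball_subset_image_closedBall (by positivity) hsph hfr
  have hz2 : z.2 ∈ Metric.ball (S.p t z.1 (y.2 : ℂ)) (k0 * (r4 / 2) / 2) := by
    rw [Metric.mem_ball, dist_eq_norm]
    have e1 := lip hr hm ht hy (z1 := z.1) (z2 := (y.2 : ℂ)) (by linarith) (by simpa using hr)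
    simp only [sub_self, norm_zero, add_zero] at e1
    have e2 : z.2 - S.p t z.1 (y.2 : ℂ) = (z.2 - S.p t (y.1 : ℂ) (y.2 : ℂ)) -
        (S.p t z.1 (y.2 : ℂ) - S.p t (y.1 : ℂ) (y.2 : ℂ)) := by ring
    rw [e2]
    have e3 := norm_sub_le (z.2 - S.p t (y.1 : ℂ) (y.2 : ℂ))
        (S.p t z.1 (y.2 : ℂ) - S.p t (y.1 : ℂ) (y.2 : ℂ))
    have e4 : (2 * M / S.r + M) * ‖z.1 - (y.1 : ℂ)‖ ≤ (2 * M / S.r + M) * r2 :=
      mul_le_mul_of_nonneg_left h1.le (by positivity)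
    have e5 : (2 * M / S.r + M + 1) * r2 = (2 * M / S.r + M) * r2 + r2 := by ring
    have e6 : k0 * (r4 / 2) / 2 = k0 * r4 / 4 := by ring
    rw [e6]
    linarith
  obtain ⟨w, hw, hwz⟩ := hmain hz2
  exact ⟨w, hcl w hw, hwz⟩

theorem ft_w : GReg → GMom → GW := by
  intro hReg hMom S hS
  obtain ⟨g1, g2, g3, -, ⟨MV, g5⟩, g6, g7, g8, -⟩ := hReg S hS
  obtain ⟨k0, M, hk0, hM, hcont, -, hrest⟩ := hMom S hS
  have hm : MF S k0 M :=
    { hk0 := hk0
      hM := hM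
      cont := hcont
      diff := fun t ht => (hrest t ht).1
      der := fun t ht z hz => ((hrest t ht).2.2 z hz).1
      re := fun t ht z hz => ((hrest t ht).2.2 z hz).2.2.2.1
      nrm := fun t ht z hz => ((hrest t ht).2.2 z hz).2.2.2.2.1
      bd := fun t ht z hz => ((hrest t ht).2.2 z hz).2.2.2.2.2.1
      per := fun t ht z hz => ((hrest t ht).2.2 z hz).2.2.2.2.2.2.2.1
      sym := fun t ht z hz => ((hrest t ht).2.2 z hz).2.2.2.2.2.2.2.2.2.1 }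
  clear hrest
  have hr := hS.hr
  obtain ⟨r4, h4, h4r, hinj⟩ := inj_exists S hS hm g1 g2
  set L : ℝ := 2 * M / S.r + M with hL
  have hL0 : 0 < L := by positivity
  set r2 : ℝ := min r4 (k0 * r4 / (4 * (L + 1))) with hr2
  have h2 : 0 < r2 := lt_min h4 (by positivity)
  have h24 : r2 ≤ r4 := min_le_left _ _
  have h2' : (L + 1) * r2 ≤ k0 * r4 / 4 := by
    have e1 : r2 ≤ k0 * r4 / (4 * (L + 1)) := min_le_right _ _
    have e2 := mul_le_mul_of_nonneg_left e1 (by positivity : 0 ≤ L + 1)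
    refine e2.trans (le_of_eq ?_)
    field_simp
  set r3 : ℝ := r2 / (2 * (L + 1)) with hr3
  have h3 : 0 < r3 := by positivity
  have h3L : L * (2 * r3) < r2 := by
    have e1 : r3 * (2 * (L + 1)) = r2 := by rw [hr3]; field_simp
    nlinarith
  have h32 : r3 ≤ r2 := by
    have e1 : r3 * (2 * (L + 1)) = r2 := by rw [hr3]; field_simp
    nlinarith
  have hsub : ∀ t, S.Nb t r4 ⊆ S.Nb t S.r := fun t => Nb_mono (by linarith)
  set W : ℝ → ℂ → ℂ → ℂ := Wf S r4 with hW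
  have hWs : ∀ t ∈ Icc (0:ℝ) 1, ∀ z ∈ Pb S t r2, (z.1, W t z.1 z.2) ∈ S.Nb t r4 ∧
      S.p t z.1 (W t z.1 z.2) = z.2 := by
    intro t ht z hz
    have h := exists_sol hr hm h4 h4r h24 (by rw [← hL]; exact h2') hinj ht hz
    have e : W t z.1 z.2 = h.choose := by
      rw [hW]
      unfold Wf
      rw [dif_pos h]
    rw [e]
    exact h.choose_spec
  have hinj0 : ∀ t ∈ Icc (0:ℝ) 1, ∀ q w w' : ℂ, (q, w) ∈ S.Nb t r4 → (q, w') ∈ S.Nb t r4 →
      S.p t q w = S.p t q w' → w = w' := by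
    intro t ht q w w' hw hw' he
    have e1 := hinj t ht q w w' hw hw'
    rw [he, sub_self, norm_zero] at e1
    by_contra hne
    have e2 : 0 < ‖w - w'‖ := norm_pos_iff.2 (sub_ne_zero.2 hne)
    nlinarith
  have hopn : ∀ t : ℝ, IsOpen (Pb S t r2) := by
    intro t
    have e : Pb S t r2 = ⋃ y ∈ S.Reg t, {z : ℂ × ℂ | ‖z.1 - (y.1 : ℂ)‖ < r2 ∧
        ‖z.2 - S.p t (y.1 : ℂ) (y.2 : ℂ)‖ < r2} := by
      ext z
      simp only [Pb, Set.mem_ofPred_eq, Set.mem_iUnion, exists_prop]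
    rw [e]
    refine isOpen_biUnion fun y _ => ?_
    have o1 : IsOpen {z : ℂ × ℂ | ‖z.1 - (y.1 : ℂ)‖ < r2} :=
      isOpen_lt (by fun_prop) continuous_const
    have o2 : IsOpen {z : ℂ × ℂ | ‖z.2 - S.p t (y.1 : ℂ) (y.2 : ℂ)‖ < r2} :=
      isOpen_lt (by fun_prop) continuous_const
    exact o1.inter o2
  have hcW : ContinuousOn (fun y : ℝ × (ℂ × ℂ) => W y.1 y.2.1 y.2.2)
      {y | y.1 ∈ Icc (0:ℝ) 1 ∧ y.2 ∈ Pb S y.1 r2} := by
    rintro ⟨t, z⟩ ⟨ht, hz⟩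
    simp only at ht hz
    obtain ⟨hw, hwz⟩ := hWs t ht z hz
    set w := W t z.1 z.2 with hwdef
    set D : Set (ℝ × (ℂ × ℂ)) := {y | y.1 ∈ Icc (0:ℝ) 1 ∧ y.2 ∈ Pb S y.1 r2} with hD
    -- the moved point
    have hmap : Tendsto (fun y : ℝ × (ℂ × ℂ) => ((y.1, (y.2.1, w)) : ℝ × (ℂ × ℂ))) (𝓝[D] (t, z))
        (𝓝[Icc (0:ℝ) 1 ×ˢ univ] (t, (z.1, w))) := by
      refine tendsto_nhdsWithin_of_tendsto_nhds_of_eventually_within _ ?_ ?_
      · have : Continuous (fun y : ℝ × (ℂ × ℂ) => ((y.1, (y.2.1, w)) : ℝ × (ℂ × ℂ))) := by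
          fun_prop
        exact (this.tendsto (t, z)).mono_left nhdsWithin_le_nhds
      · filter_upwards [self_mem_nhdsWithin] with y hy
        exact ⟨hy.1, mem_univ _⟩
    have hev : ∀ᶠ y in 𝓝[D] (t, z), (y.2.1, w) ∈ S.Nb y.1 r4 :=
      hmap.eventually (g7 r4 t ht (z.1, w) hw)
    have hbd : ∀ᶠ y in 𝓝[D] (t, z), ‖W y.1 y.2.1 y.2.2 - w‖ ≤
        k0⁻¹ * ‖y.2.2 - S.p y.1 y.2.1 w‖ := by
      filter_upwards [hev, self_mem_nhdsWithin] with y hy hyD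
      obtain ⟨e1, e2⟩ := hWs y.1 hyD.1 y.2 hyD.2
      have e3 := hinj y.1 hyD.1 y.2.1 _ _ e1 hy
      rw [e2] at e3
      rw [inv_mul_eq_div, le_div_iff₀ hk0]
      linarith
    have hpc : Tendsto (fun y : ℝ × (ℂ × ℂ) => S.p y.1 y.2.1 w) (𝓝[D] (t, z))
        (𝓝 (S.p t z.1 w)) := by
      have e1 := hm.cont (t, (z.1, w)) ⟨ht, hsub t hw⟩
      have e2 : Tendsto (fun y : ℝ × (ℂ × ℂ) => ((y.1, (y.2.1, w)) : ℝ × (ℂ × ℂ))) (𝓝[D] (t, z))
          (𝓝[{y | y.1 ∈ Icc (0:ℝ) 1 ∧ y.2 ∈ S.Nb y.1 S.r}] (t, (z.1, w))) := by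
        refine tendsto_nhdsWithin_of_tendsto_nhds_of_eventually_within _
          (hmap.mono_right nhdsWithin_le_nhds) ?_
        filter_upwards [hev, self_mem_nhdsWithin] with y hy hyD
        exact ⟨hyD.1, hsub _ hy⟩
      exact e1.tendsto.comp e2
    have hlim : Tendsto (fun y : ℝ × (ℂ × ℂ) => k0⁻¹ * ‖y.2.2 - S.p y.1 y.2.1 w‖) (𝓝[D] (t, z))
        (𝓝 0) := by
      have e1 : Tendsto (fun y : ℝ × (ℂ × ℂ) => y.2.2) (𝓝[D] (t, z)) (𝓝 z.2) := by
        have : Continuous (fun y : ℝ × (ℂ × ℂ) => y.2.2) := by fun_prop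
        exact (this.tendsto (t, z)).mono_left nhdsWithin_le_nhds
      have e2 := ((e1.sub hpc).norm).const_mul k0⁻¹
      rw [hwz, sub_self, norm_zero, mul_zero] at e2
      exact e2
    have h0 : Tendsto (fun y : ℝ × (ℂ × ℂ) => ‖W y.1 y.2.1 y.2.2 - w‖) (𝓝[D] (t, z)) (𝓝 0) :=
      squeeze_zero' (Eventually.of_forall fun _ => norm_nonneg _) hbd hlim
    exact tendsto_iff_norm_sub_tendsto_zero.2 h0
  have hcWt : ∀ t ∈ Icc (0:ℝ) 1, ∀ z ∈ Pb S t r2,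
      ContinuousAt (fun z : ℂ × ℂ => W t z.1 z.2) z := by
    intro t ht z hz
    have e1 := hcW (t, z) ⟨ht, hz⟩
    have e2 : Tendsto (fun z' : ℂ × ℂ => ((t, z') : ℝ × (ℂ × ℂ))) (𝓝 z)
        (𝓝[{y | y.1 ∈ Icc (0:ℝ) 1 ∧ y.2 ∈ Pb S y.1 r2}] (t, z)) := by
      refine tendsto_nhdsWithin_of_tendsto_nhds_of_eventually_within _ ?_ ?_
      · exact (by fun_prop : Continuous (fun z' : ℂ × ℂ => ((t, z') : ℝ × (ℂ × ℂ)))).tendsto z
      · filter_upwards [(hopn t).mem_nhds hz] with z' hz'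
        exact ⟨ht, hz'⟩
    exact e1.tendsto.comp e2
  -- derivatives
  have hdW : ∀ t ∈ Icc (0:ℝ) 1, ∀ z ∈ Pb S t r2, HasDerivAt (fun v => W t z.1 v)
      (S.κ (z.1 - t * W t z.1 z.2) (W t z.1 z.2))⁻¹ z.2 := by
    intro t ht z hz
    obtain ⟨hw, hwz⟩ := hWs t ht z hz
    have hc : ContinuousAt (fun v => W t z.1 v) z.2 := by
      have e1 := hcWt t ht z hz
      have e2 : ContinuousAt (fun v : ℂ => ((z.1, v) : ℂ × ℂ)) z.2 := by fun_prop
      exact ContinuousAt.comp (f := fun v : ℂ => ((z.1, v) : ℂ × ℂ)) (x := z.2) e1 e2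
    have hne : S.κ (z.1 - t * W t z.1 z.2) (W t z.1 z.2) ≠ 0 := by
      intro h0
      have := hm.re t ht _ (hsub t hw)
      simp only at this
      rw [h0, Complex.zero_re] at this
      linarith
    refine HasDerivAt.of_local_left_inverse hc (hm.der t ht _ (hsub t hw)) hne ?_
    have e2 : ∀ᶠ v in 𝓝 z.2, (z.1, v) ∈ Pb S t r2 := by
      have e3 : ContinuousAt (fun v : ℂ => ((z.1, v) : ℂ × ℂ)) z.2 := by fun_prop
      exact e3.eventually ((hopn t).mem_nhds hz)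
    filter_upwards [e2] with v hv
    exact (hWs t ht _ hv).2
  have hholW : ∀ t ∈ Icc (0:ℝ) 1,
      DifferentiableOn ℂ (fun z : ℂ × ℂ => W t z.1 z.2) (Pb S t r2) := by
    intro t ht z hz
    obtain ⟨hw, hwz⟩ := hWs t ht z hz
    set κ := S.κ (z.1 - t * W t z.1 z.2) (W t z.1 z.2) with hκ
    have hne : κ ≠ 0 := by
      intro h0
      have := hm.re t ht _ (hsub t hw)
      simp only at this
      rw [← hκ, h0, Complex.zero_re] at this
      linarith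
    have hpd : HasFDerivAt (fun z : ℂ × ℂ => S.p t z.1 z.2)
        (fderiv ℂ (fun z : ℂ × ℂ => S.p t z.1 z.2) (z.1, W t z.1 z.2)) (z.1, W t z.1 z.2) :=
      ((hm.diff t ht).differentiableAt ((g6 t S.r).mem_nhds (hsub t hw))).hasFDerivAt
    set A := fderiv ℂ (fun z : ℂ × ℂ => S.p t z.1 z.2) (z.1, W t z.1 z.2) with hA
    have hA2 : A (0, 1) = κ := by
      have e1 : HasDerivAt (fun v : ℂ => ((z.1, v) : ℂ × ℂ)) ((0 : ℂ), (1 : ℂ)) (W t z.1 z.2) :=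
        (hasDerivAt_const _ _).prodMk (hasDerivAt_id _)
      have e2 := HasFDerivAt.comp_hasDerivAt (f := fun v : ℂ => ((z.1, v) : ℂ × ℂ))
        (W t z.1 z.2) hpd e1
      exact e2.unique (hm.der t ht _ (hsub t hw))
    have hΨ : HasFDerivAt (fun z : ℂ × ℂ => ((z.1, S.p t z.1 z.2) : ℂ × ℂ))
        ((ContinuousLinearMap.fst ℂ ℂ ℂ).prod A) (z.1, W t z.1 z.2) :=
      hasFDerivAt_fst.prodMk hpd
    have hgc : ContinuousAt (fun z : ℂ × ℂ => ((z.1, W t z.1 z.2) : ℂ × ℂ)) z :=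
      continuousAt_fst.prodMk (hcWt t ht z hz)
    have hli : Function.LeftInverse
        ((ContinuousLinearMap.fst ℂ ℂ ℂ).prod (κ⁻¹ • (ContinuousLinearMap.snd ℂ ℂ ℂ -
          A.comp ((ContinuousLinearMap.inl ℂ ℂ ℂ).comp (ContinuousLinearMap.fst ℂ ℂ ℂ)))))
        ((ContinuousLinearMap.fst ℂ ℂ ℂ).prod A) := by
      rintro ⟨a, b⟩
      have e1 : A (a, b) - A (a, 0) = κ * b := by
        rw [← map_sub]
        have e2 : ((a, b) : ℂ × ℂ) - (a, 0) = b • ((0 : ℂ), (1 : ℂ)) := by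
          simp
        rw [e2, map_smul, hA2, smul_eq_mul, mul_comm]
      simp only [ContinuousLinearMap.prod_apply, ContinuousLinearMap.coe_fst',
        ContinuousLinearMap.coe_snd', ContinuousLinearMap.smul_apply,
        ContinuousLinearMap.sub_apply, ContinuousLinearMap.comp_apply,
        ContinuousLinearMap.inl_apply, smul_eq_mul]
      rw [e1, inv_mul_cancel_left₀ hne]
    have hev : (fun z : ℂ × ℂ => ((z.1, S.p t z.1 z.2) : ℂ × ℂ)) ∘
        (fun z : ℂ × ℂ => ((z.1, W t z.1 z.2) : ℂ × ℂ)) =ᶠ[𝓝 z] id := by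
      filter_upwards [(hopn t).mem_nhds hz] with z' hz'
      exact Prod.ext rfl (hWs t ht z' hz').2
    have hfin := HasFDerivAt.of_comp_of_leftInverse
      (f := fun z : ℂ × ℂ => ((z.1, S.p t z.1 z.2) : ℂ × ℂ))
      (g := fun z : ℂ × ℂ => ((z.1, W t z.1 z.2) : ℂ × ℂ)) (a := z) hgc hΨ (hasFDerivAt_id z)
      hev hli
    exact hfin.snd.differentiableAt.differentiableWithinAt
  -- reality of the momentum
  have hreal : ∀ t ∈ Icc (0:ℝ) 1, ∀ y ∈ S.Reg t,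
      (starRingEnd ℂ) (S.p t (y.1 : ℂ) (y.2 : ℂ)) = S.p t (y.1 : ℂ) (y.2 : ℂ) := by
    intro t ht y hy
    have h := hm.sym t ht ((y.1 : ℂ), (y.2 : ℂ)) (mem_Nb hy (by simpa using hr) (by simpa using hr))
    simp only [Complex.conj_ofReal] at h
    exact h.symm
  have hstar : ∀ t ∈ Icc (0:ℝ) 1, ∀ z ∈ Pb S t r2, ∀ s ∈ Icc (0:ℝ) 1,
      (z.1, s * z.2) ∈ Pb S t r2 ∧ ∃ y ∈ S.Reg t, ‖z.1 - (y.1 : ℂ)‖ < r2 ∧
        (y.1, (0 : ℝ)) ∈ S.Reg t := by
    intro t ht z hz s hs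
    obtain ⟨y, hy, e1, e2⟩ := hz
    have hz0 : (y.1, (0 : ℝ)) ∈ S.Reg t := by
      have := g2 t ht y.1 0 ⟨hS.ha.le, hS.hb.le⟩
      rwa [hS.Vzero y.1 t ht] at this
    refine ⟨?_, y, hy, e1, hz0⟩
    have hseg : ∀ v ∈ uIcc 0 y.2, (y.1, v) ∈ S.Reg t := by
      intro v hv
      obtain ⟨p1, p2⟩ := hy
      obtain ⟨p3, p4⟩ := hz0
      simp only at p1 p2 p3 p4
      rw [mem_uIcc] at hv
      constructor
      · show S.V S.a y.1 t ≤ v
        rcases hv with hv | hv <;> linarith [hv.1, hv.2]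
      · show v ≤ S.V S.b y.1 t
        rcases hv with hv | hv <;> linarith [hv.1, hv.2]
    have hcf : ContinuousOn (fun v : ℝ => (S.p t (y.1 : ℂ) (v : ℂ)).re) (uIcc 0 y.2) := by
      intro v hv
      have e3 := (hm.der t ht ((y.1 : ℂ), (v : ℂ))
        (mem_Nb (hseg v hv) (by simpa using hr) (by simpa using hr))).real_of_complex
      exact e3.continuousAt.continuousWithinAt
    have hivt := intermediate_value_uIcc hcf
    have hp0 : S.p t (y.1 : ℂ) ((0 : ℝ) : ℂ) = 0 := by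
      simp [Sys.p]
    have hmem : s * (S.p t (y.1 : ℂ) (y.2 : ℂ)).re ∈
        uIcc ((S.p t (y.1 : ℂ) ((0 : ℝ) : ℂ)).re) ((S.p t (y.1 : ℂ) (y.2 : ℂ)).re) := by
      rw [hp0, Complex.zero_re, mem_uIcc]
      obtain ⟨s0, s1⟩ := hs
      rcases le_total 0 (S.p t (y.1 : ℂ) (y.2 : ℂ)).re with h | h
      · exact Or.inl ⟨by positivity, by nlinarith⟩
      · exact Or.inr ⟨by nlinarith, mul_nonpos_of_nonneg_of_nonpos s0 h⟩
    obtain ⟨v, hv, hvs⟩ := hivt hmem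
    simp only at hvs
    refine ⟨(y.1, v), hseg v hv, e1, ?_⟩
    simp only
    have hpv : S.p t (y.1 : ℂ) (v : ℂ) = s * S.p t (y.1 : ℂ) (y.2 : ℂ) := by
      have c1 := Complex.conj_eq_iff_re.1 (hreal t ht (y.1, v) (hseg v hv))
      have c2 := Complex.conj_eq_iff_re.1 (hreal t ht y hy)
      simp only at c1
      rw [← c1, hvs]
      push_cast
      rw [c2]
    rw [hpv, ← mul_sub, norm_mul, Complex.norm_real, Real.norm_eq_abs, abs_of_nonneg hs.1]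
    have := norm_nonneg (z.2 - S.p t (y.1 : ℂ) (y.2 : ℂ))
    nlinarith [hs.1, hs.2]
  refine ⟨W, r2, r3, max (MV + S.r) k0⁻¹, k0 / M ^ 2, ?_⟩
  exact
    { h2 := h2
      h3 := h3
      h3' := by linarith
      hk := by positivity
      opn := hopn
      cont := hcW
      hol := hholW
      pW := fun t ht z hz => ⟨hsub t (hWs t ht z hz).1, (hWs t ht z hz).2⟩
      Wp := by
        intro t ht z hz
        obtain ⟨y, hy, e1, e2⟩ := hz
        have hmem : (z.1, S.p t z.1 z.2) ∈ Pb S t r2 := by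
          refine ⟨y, hy, by simp only; linarith, ?_⟩
          simp only
          have e3 := lip hr hm ht hy (z1 := z.1) (z2 := z.2) (by linarith) (by linarith)
          rw [← hL] at e3
          have e4 : L * (‖z.1 - (y.1 : ℂ)‖ + ‖z.2 - (y.2 : ℂ)‖) ≤ L * (2 * r3) :=
            mul_le_mul_of_nonneg_left (by linarith) hL0.le
          linarith
        refine ⟨hmem, ?_⟩
        obtain ⟨e3, e4⟩ := hWs t ht _ hmem
        exact hinj0 t ht z.1 _ _ e3 ⟨y, hy, by simp only; linarith, by simp only; linarith⟩ e4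
      bd := by
        intro t ht z hz
        obtain ⟨hw, hwz⟩ := hWs t ht z hz
        refine ⟨?_, ?_, ?_⟩
        · refine le_trans ?_ (le_max_left _ _)
          obtain ⟨y, hy, e1, e2⟩ := hw
          simp only at e2
          have e3 := g5 t ht y hy
          have e4 : W t z.1 z.2 = (W t z.1 z.2 - (y.2 : ℂ)) + (y.2 : ℂ) := by ring
          rw [e4]
          refine (norm_add_le _ _).trans ?_
          rw [Complex.norm_real, Real.norm_eq_abs]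
          linarith
        · rw [(hdW t ht z hz).deriv, norm_inv]
          refine le_trans ?_ (le_max_right _ _)
          have e1 := hm.re t ht _ (hsub t hw)
          have e2 := Complex.re_le_norm (S.κ (z.1 - t * W t z.1 z.2) (W t z.1 z.2))
          simp only at e1
          exact inv_anti₀ hk0 (e1.trans e2)
        · rw [(hdW t ht z hz).deriv, Complex.inv_re, Complex.normSq_eq_norm_sq]
          have e1 := hm.re t ht _ (hsub t hw)
          have e2 := hm.nrm t ht _ (hsub t hw)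
          simp only at e1 e2
          have e3 := Complex.re_le_norm (S.κ (z.1 - t * W t z.1 z.2) (W t z.1 z.2))
          have e4 : 0 < ‖S.κ (z.1 - t * W t z.1 z.2) (W t z.1 z.2)‖ := by linarith
          have e5 : ‖S.κ (z.1 - t * W t z.1 z.2) (W t z.1 z.2)‖ ^ 2 ≤ M ^ 2 :=
            pow_le_pow_left₀ e4.le e2 2
          exact div_le_div₀ (by linarith) e1 (by positivity) e5
      per := by
        intro t ht z hz
        have hz' : (z.1 + 1, z.2) ∈ Pb S t r2 := by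
          obtain ⟨y, hy, e1, e2⟩ := hz
          have hy' : (y.1 + 1, y.2) ∈ S.Reg t := by
            obtain ⟨p1, p2⟩ := hy
            refine ⟨?_, ?_⟩
            · show S.V S.a (y.1 + 1) t ≤ y.2
              rwa [hS.Vper S.a ⟨le_rfl, (hS.ha.trans hS.hb).le⟩ y.1 t ht]
            · show y.2 ≤ S.V S.b (y.1 + 1) t
              rwa [hS.Vper S.b ⟨(hS.ha.trans hS.hb).le, le_rfl⟩ y.1 t ht]
          refine ⟨(y.1 + 1, y.2), hy', ?_, ?_⟩
          · simp only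
            push_cast
            rwa [add_sub_add_right_eq_sub]
          · simp only
            have e3 := hm.per t ht ((y.1 : ℂ), (y.2 : ℂ))
              (mem_Nb hy (by simpa using hr) (by simpa using hr))
            simp only at e3
            push_cast
            rwa [e3]
        refine ⟨hz', ?_⟩
        obtain ⟨e1, e2⟩ := hWs t ht z hz
        obtain ⟨e3, e4⟩ := hWs t ht _ hz'
        refine hinj0 t ht (z.1 + 1) _ _ e3 (g8 r4 t ht _ e1).1 ?_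
        have e5 := hm.per t ht _ (hsub t e1)
        simp only at e5 e4
        rw [e4, e5, e2]
      sym := by
        intro t ht z hz
        have hz' : ((starRingEnd ℂ) z.1, (starRingEnd ℂ) z.2) ∈ Pb S t r2 := by
          obtain ⟨y, hy, e1, e2⟩ := hz
          refine ⟨y, hy, ?_, ?_⟩
          · simp only
            rw [← Complex.conj_ofReal y.1, ← map_sub, RCLike.norm_conj]
            exact e1
          · simp only
            rw [← hreal t ht y hy, ← map_sub, RCLike.norm_conj]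
            exact e2
        refine ⟨hz', ?_⟩
        obtain ⟨e1, e2⟩ := hWs t ht z hz
        obtain ⟨e3, e4⟩ := hWs t ht _ hz'
        refine hinj0 t ht ((starRingEnd ℂ) z.1) _ _ e3 (g8 r4 t ht _ e1).2.2 ?_
        have e5 := hm.sym t ht _ (hsub t e1)
        simp only at e5 e4
        rw [e4, e5, e2]
      star := fun t ht z hz s hs => (hstar t ht z hz s hs).1
      zero := by
        intro t ht z hz
        obtain ⟨h0, y, hy, e1, e2⟩ := hstar t ht z hz 0 ⟨le_rfl, zero_le_one⟩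
        have h0' : (z.1, (0 : ℂ)) ∈ Pb S t r2 := by simpa using h0
        obtain ⟨e3, e4⟩ := hWs t ht _ h0'
        refine hinj0 t ht z.1 _ _ e3 ⟨(y.1, 0), e2, by simp only; linarith, by simpa using h4⟩ ?_
        simp only at e4
        rw [e4]
        simp [Sys.p] }

end Pool.Agent.Helper67.FT
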